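import Pool.Agent.Helper12_UNF.Stmts

set_option autoImplicit false

/-!
# Squad UNF: modules CHR (parabolic subgroups of a Coxeter group and the geometric representation)
and DEC (coset decomposition)
-/

namespace Unf.H58

open Art Unf Pool.Agent.Helper38_Coxeter

variable {S : Type} {M : CoxeterMatrix S}

theorem suppIn_add {D : Set S} {u v : S →₀ ℝ} (hu : SuppIn D u) (hv : SuppIn D v) :
    SuppIn D (u + v) := fun s hs => by
  rw [Finsupp.add_apply, hu s hs, hv s hs, add_zero]

theorem suppIn_neg {D : Set S} {u : S →₀ ℝ} (hu : SuppIn D u) : SuppIn D (-u) := fun s hs => by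
  rw [Finsupp.neg_apply, hu s hs, neg_zero]

theorem suppIn_smul {D : Set S} {u : S →₀ ℝ} (c : ℝ) (hu : SuppIn D u) : SuppIn D (c • u) :=
  fun s hs => by rw [Finsupp.smul_apply, hu s hs, smul_zero]

theorem suppIn_sr {D : Set S} {t : S} (ht : t ∈ D) : SuppIn D (sr t) := fun s hs => by
  unfold sr
  refine Finsupp.single_eq_of_ne ?_
  rintro rfl
  exact hs ht

theorem rho_simple_sub (s : S) (v : S →₀ ℝ) :
    rho M.toCoxeterSystem (M.simple s) v = v - (2 * bil M (sr s) v) • sr s := by
  have h : rho M.toCoxeterSystem (M.simple s) = sig M s := rho_simple M.toCoxeterSystem s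
  rw [h, sig_apply]

theorem rho_mul_apply (x y : M.Group) (v : S →₀ ℝ) :
    rho M.toCoxeterSystem (x * y) v = rho M.toCoxeterSystem x (rho M.toCoxeterSystem y v) := by
  rw [map_mul, LinearEquiv.mul_apply]

theorem rho_one_apply (v : S →₀ ℝ) : rho M.toCoxeterSystem (1 : M.Group) v = v := by
  rw [map_one, LinearEquiv.coe_one, id_eq]

/-- first half of CHR -/
theorem suppIn_of_mem {D : Set S} {w : M.Group} (hw : w ∈ WP M D) :
    ∀ v : S →₀ ℝ, SuppIn D (rho M.toCoxeterSystem w v - v) := by
  unfold WP at hw
  induction hw using Subgroup.closure_induction with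
  | mem x hx =>
    obtain ⟨s, hs, rfl⟩ := hx
    intro v
    rw [rho_simple_sub, sub_sub_cancel_left]
    exact suppIn_neg (suppIn_smul _ (suppIn_sr hs))
  | one =>
    intro v
    rw [rho_one_apply, sub_self]
    exact fun s _ => rfl
  | mul x y _ _ hx hy =>
    intro v
    rw [rho_mul_apply]
    have e : rho M.toCoxeterSystem x (rho M.toCoxeterSystem y v) - v =
        (rho M.toCoxeterSystem x (rho M.toCoxeterSystem y v) - rho M.toCoxeterSystem y v) +
          (rho M.toCoxeterSystem y v - v) := by abel
    rw [e]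
    exact suppIn_add (hx _) (hy _)
  | inv x _ hx =>
    intro v
    have h := hx (rho M.toCoxeterSystem x⁻¹ v)
    rw [← rho_mul_apply, mul_inv_cancel, rho_one_apply] at h
    have h2 := suppIn_neg h
    rwa [neg_sub] at h2

/-- a simple root which is made negative belongs to `D` -/
theorem mem_of_neg {D : Set S} {w : M.Group} {s : S}
    (h : SuppIn D (rho M.toCoxeterSystem w (sr s) - sr s))
    (hn : NN (-(rho M.toCoxeterSystem w (sr s)))) : s ∈ D := by
  by_contra hs
  have h1 := h s hs
  rw [Finsupp.sub_apply] at h1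
  have h2 : (sr s : S →₀ ℝ) s = 1 := by simp [sr]
  have h3 := hn s
  rw [Finsupp.neg_apply] at h3
  linarith

/-- **CHR** -/
theorem chr : ChrStmt := by
  intro S M D w
  constructor
  · intro h
    exact suppIn_of_mem h
  · have key : ∀ n : ℕ, ∀ w : M.Group, M.toCoxeterSystem.length w = n →
        (∀ v : S →₀ ℝ, SuppIn D (rho M.toCoxeterSystem w v - v)) → w ∈ WP M D := by
      intro n
      induction n using Nat.strong_induction_on with
      | _ n ih =>
        intro w hn hw
        by_cases h1 : w = 1
        · rw [h1]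
          exact Subgroup.one_mem _
        · obtain ⟨s, hs⟩ := M.toCoxeterSystem.exists_rightDescent_of_ne_one h1
          have hsD : s ∈ D := mem_of_neg (hw (sr s)) (NN_neg_rho_sr M.toCoxeterSystem hs)
          have hlt : M.toCoxeterSystem.length (w * M.simple s) < n := by
            rw [← hn]
            exact hs
          have h2 : w * M.simple s ∈ WP M D := by
            refine ih _ hlt (w * M.simple s) rfl fun v => ?_
            rw [rho_mul_apply, rho_simple_sub]
            set u : S →₀ ℝ := (2 * bil M (sr s) v) • sr s with hu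
            have e : rho M.toCoxeterSystem w (v - u) - v =
                (rho M.toCoxeterSystem w (v - u) - (v - u)) + (-u) := by abel
            rw [e]
            exact suppIn_add (hw _) (suppIn_neg (suppIn_smul _ (suppIn_sr hsD)))
          have h3 : M.simple s ∈ WP M D := Subgroup.subset_closure ⟨s, hsD, rfl⟩
          have h4 := Subgroup.mul_mem _ h2 h3
          have h5 : M.simple s * M.simple s = 1 := M.toCoxeterSystem.simple_mul_simple_self s
          rwa [mul_assoc, h5, mul_one] at h4
    intro h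
    exact key _ w rfl h

theorem nn_map {D : Set S} {g : M.Group} (hg : ∀ t ∈ D, NN (rho M.toCoxeterSystem g (sr t)))
    {v : S →₀ ℝ} (hv : NN v) (hs : SuppIn D v) : NN (rho M.toCoxeterSystem g v) := by
  have e : v = v.sum fun t c => c • sr t := by
    conv_lhs => rw [← Finsupp.sum_single v]
    refine Finsupp.sum_congr fun t _ => ?_
    unfold sr
    rw [Finsupp.smul_single, smul_eq_mul, mul_one]
  rw [e, Finsupp.sum, map_sum]
  intro b
  rw [Finsupp.finsetSum_apply]
  refine Finset.sum_nonneg fun t ht => ?_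
  rw [map_smul, Finsupp.smul_apply]
  refine mul_nonneg (hv t) ?_
  have htD : t ∈ D := by
    by_contra h
    exact (Finsupp.mem_support_iff.1 ht) (hs t h)
  exact hg t htD b

/-- existence of the decomposition -/
theorem dec_exists (D : Set S) : ∀ n : ℕ, ∀ w : M.Group, M.toCoxeterSystem.length w = n →
    ∃ a d : M.Group, w = a * d ∧ a ∈ WP M D ∧ Min M D d ∧
      ∀ U : Set S, w ∈ WP M U → a ∈ WP M U := by
  intro n
  induction n using Nat.strong_induction_on with
  | _ n ih =>
    intro w hn
    by_cases hm : Min M D w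
    · exact ⟨1, w, (one_mul _).symm, Subgroup.one_mem _, hm, fun U _ => Subgroup.one_mem _⟩
    · unfold Min at hm
      push Not at hm
      obtain ⟨t, htD, ht⟩ := hm
      have hd : M.toCoxeterSystem.IsRightDescent w⁻¹ t := by
        by_contra h
        exact ht (NN_rho_sr M.toCoxeterSystem h)
      have hneg := NN_neg_rho_sr M.toCoxeterSystem hd
      have hlt : M.toCoxeterSystem.length (M.simple t * w) < n := by
        have h1 : M.toCoxeterSystem.length (w⁻¹ * M.simple t) < M.toCoxeterSystem.length w⁻¹ := hd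
        rw [M.toCoxeterSystem.length_inv, hn] at h1
        have h2 : (w⁻¹ * M.simple t) = (M.simple t * w)⁻¹ := by
          rw [mul_inv_rev]
          congr 1
          exact (M.toCoxeterSystem.inv_simple t).symm
        rwa [h2, M.toCoxeterSystem.length_inv] at h1
      have h5 : M.simple t * M.simple t = 1 := M.toCoxeterSystem.simple_mul_simple_self t
      obtain ⟨a, d, e1, e2, e3, e4⟩ := ih _ hlt (M.simple t * w) rfl
      refine ⟨M.simple t * a, d, ?_, Subgroup.mul_mem _ (Subgroup.subset_closure ⟨t, htD, rfl⟩) e2,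
        e3, ?_⟩
      · rw [mul_assoc, ← e1, ← mul_assoc, h5, one_mul]
      · intro U hU
        have htU : t ∈ U := mem_of_neg (suppIn_of_mem (Subgroup.inv_mem _ hU) (sr t)) hneg
        have h6 : M.simple t ∈ WP M U := Subgroup.subset_closure ⟨t, htU, rfl⟩
        exact Subgroup.mul_mem _ h6 (e4 U (Subgroup.mul_mem _ h6 hU))

/-- uniqueness of the decomposition -/
theorem dec_unique {D : Set S} {a d a' d' : M.Group} (ha : a ∈ WP M D) (hd : Min M D d)
    (ha' : a' ∈ WP M D) (hd' : Min M D d') (h : a * d = a' * d') : a = a' := by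
  have he : (a⁻¹ * a')⁻¹ ∈ WP M D := Subgroup.inv_mem _ (Subgroup.mul_mem _ (Subgroup.inv_mem _ ha) ha')
  have hde : d = (a⁻¹ * a') * d' := by
    rw [mul_assoc, ← h, ← mul_assoc, inv_mul_cancel, one_mul]
  set e := a⁻¹ * a' with hedef
  by_cases h1 : e⁻¹ = 1
  · have h2 : e = 1 := inv_eq_one.1 h1
    rw [hedef] at h2
    exact (inv_mul_eq_one.1 h2)
  · exfalso
    obtain ⟨t, ht⟩ := M.toCoxeterSystem.exists_rightDescent_of_ne_one h1
    have hneg := NN_neg_rho_sr M.toCoxeterSystem ht
    have hsupp := suppIn_of_mem he (sr t)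
    have htD : t ∈ D := mem_of_neg hsupp hneg
    have h3 : SuppIn D (rho M.toCoxeterSystem e⁻¹ (sr t)) := by
      have := suppIn_add hsupp (suppIn_sr htD)
      rwa [sub_add_cancel] at this
    have h4 := nn_map (g := d'⁻¹) (fun s hs => hd' s hs) hneg (suppIn_neg h3)
    rw [map_neg, ← rho_mul_apply] at h4
    have h5 : d'⁻¹ * e⁻¹ = d⁻¹ := by rw [hde]; exact (mul_inv_rev e d').symm
    rw [h5] at h4
    exact ((isRoot_sr (cs := M.toCoxeterSystem) t).rho d⁻¹).not_both (hd t htD) h4

/-- **DEC** -/
theorem dec : DecStmt := by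
  intro S M D
  have hex : ∀ w : M.Group, ∃ a : M.Group, a ∈ WP M D ∧ Min M D (a⁻¹ * w) ∧
      ∀ U : Set S, w ∈ WP M U → a ∈ WP M U := by
    intro w
    obtain ⟨a, d, e1, e2, e3, e4⟩ := dec_exists D _ w rfl
    refine ⟨a, e2, ?_, e4⟩
    rw [e1, ← mul_assoc, inv_mul_cancel, one_mul]
    exact e3
  choose p hp1 hp2 hp3 using hex
  refine ⟨p, hp1, hp2, ?_, ?_⟩
  · intro a ha d hd
    refine dec_unique (hp1 _) (hp2 (a * d)) ha hd ?_
    rw [← mul_assoc, mul_inv_cancel, one_mul]
  · intro U w hw
    exact hp3 w U hw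

end Unf.H58
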